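import Mathlib
import Pool.Agent.V117.BinEdge

namespace Pool.Agent.Results.MP_3acc10_al.TwoLinearForms

open MvPolynomial Pool.Agent.V117.BinEdge

/-- The `d`-element subsets of `{0, …, n-1}`; they index the monomial basis of the degree `d` part
of the square-free algebra. -/
abbrev Sub (n d : ℕ) := {F : Finset (Fin n) // F.card = d}

section
variable {K : Type} [Field K]

/-- The square-free form of degree `d` with coefficient vector `c`. -/
noncomputable def form {n d : ℕ} (c : Sub n d → K) : MvPolynomial (Fin n) K :=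
  ∑ F : Sub n d, C (c F) * ∏ v ∈ F.1, X v

/-- The preimage in the polynomial ring of the ideal `I_n = (f_1, …, f_r)` of the square-free
algebra: `(x_1^2, …, x_n^2) + (f_1, …, f_r)`, where `f_i` is the form of degree `d i` with
coefficient vector `c (i, ·)`. -/
noncomputable def idl {n r : ℕ} {d : Fin r → ℕ} (c : (Σ i, Sub n (d i)) → K) :
    Ideal (MvPolynomial (Fin n) K) :=
  Ideal.span (Set.range (fun i : Fin n => (X i ^ 2 : MvPolynomial (Fin n) K)) ∪
    Set.range (fun i : Fin r => form (fun F => c ⟨i, F⟩)))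

/-- Hilbert function of the quotient of the polynomial ring by `I`: the dimension of
`S_t / (I ∩ S_t)`. -/
noncomputable def HF {n : ℕ} (I : Ideal (MvPolynomial (Fin n) K)) (t : ℕ) : ℕ :=
  Module.finrank K (homogeneousSubmodule (Fin n) K t ⧸
    (I.restrictScalars K).submoduleOf (homogeneousSubmodule (Fin n) K t))

end

/-- The polynomial `(1+t)^n ∏ (1 - t^{d_i})`. -/
noncomputable def series (n : ℕ) {r : ℕ} (d : Fin r → ℕ) : Polynomial ℤ :=
  (1 + Polynomial.X) ^ n * ∏ i, (1 - Polynomial.X ^ d i)

open Classical in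
/-- The coefficients of the truncation of a polynomial before its first nonpositive coefficient. -/
noncomputable def truncCoeff (P : Polynomial ℤ) (t : ℕ) : ℤ :=
  if ∀ s ≤ t, 0 < P.coeff s then P.coeff t else 0

/-- The generic ideal of the square-free algebra in `n` variables with generator degrees `d` has the
conjectured Hilbert series: this holds for all coefficient vectors in some nonempty Zariski-open
set `{g ≠ 0}`. -/
def GenericSeriesIs (K : Type) [Field K] (n : ℕ) {r : ℕ} (d : Fin r → ℕ) : Prop :=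
  ∃ g : MvPolynomial (Σ i, Sub n (d i)) K, g ≠ 0 ∧
    ∀ c, eval c g ≠ 0 → ∀ t, (HF (idl c) t : ℤ) = truncCoeff (series n d) t

/-! ### the expected coefficient is nonpositive -/

lemma coeff_series (k : ℕ) : (series (2 * k + 3) (fun _ : Fin 2 => 1)).coeff (k + 1) =
    ((2 * k + 3).choose (k + 1) : ℤ) - 2 * (2 * k + 3).choose k +
      (if k = 0 then 0 else ((2 * k + 3).choose (k - 1) : ℤ)) := by
  have h1 : series (2 * k + 3) (fun _ : Fin 2 => 1) =
      (1 + Polynomial.X) ^ (2 * k + 3) - 2 * ((1 + Polynomial.X) ^ (2 * k + 3) * Polynomial.X) +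
        (1 + Polynomial.X) ^ (2 * k + 3) * Polynomial.X ^ 2 := by
    unfold series
    rw [Fin.prod_univ_two]
    ring
  have h2 : (2 : Polynomial ℤ) = Polynomial.C 2 := rfl
  rw [h1, Polynomial.coeff_add, Polynomial.coeff_sub, h2, Polynomial.coeff_C_mul,
    Polynomial.coeff_mul_X, Polynomial.coeff_one_add_X_pow, Polynomial.coeff_one_add_X_pow,
    Polynomial.coeff_mul_X_pow']
  by_cases hk : k = 0
  · subst hk; simp
  · rw [if_neg hk, if_pos (by omega), Polynomial.coeff_one_add_X_pow,
      show k + 1 - 2 = k - 1 by omega]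

lemma coeff_nonpos {k : ℕ} (hk : 2 ≤ k) :
    (series (2 * k + 3) (fun _ : Fin 2 => 1)).coeff (k + 1) ≤ 0 := by
  rw [coeff_series, if_neg (by omega)]
  obtain ⟨j, rfl⟩ : ∃ j, k = j + 1 := ⟨k - 1, by omega⟩
  have e1 := Nat.choose_succ_right_eq (2 * (j + 1) + 3) (j + 1)
  have e2 := Nat.choose_succ_right_eq (2 * (j + 1) + 3) j
  rw [show 2 * (j + 1) + 3 - (j + 1) = j + 4 by omega] at e1
  rw [show 2 * (j + 1) + 3 - j = j + 5 by omega] at e2
  rw [show j + 1 - 1 = j by omega]
  set A := (2 * (j + 1) + 3).choose j with hA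
  set B := (2 * (j + 1) + 3).choose (j + 1) with hB
  set D := (2 * (j + 1) + 3).choose (j + 1 + 1) with hD
  have e1' : (D : ℤ) * (j + 2) = B * (j + 4) := by
    have : D * (j + 1 + 1) = B * (j + 4) := e1
    exact_mod_cast this
  have e2' : (B : ℤ) * (j + 1) = A * (j + 5) := by exact_mod_cast e2
  have hA0 : (0 : ℤ) ≤ A := Int.natCast_nonneg _
  have hj : (1 : ℤ) ≤ j := by exact_mod_cast (by omega : 1 ≤ j)
  have key : ((D : ℤ) - 2 * B + A) * ((j + 2) * (j + 1)) = A * (2 - 2 * j) := by
    have : ((D : ℤ) - 2 * B + A) * ((j + 2) * (j + 1)) =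
        (D * (j + 2)) * (j + 1) - 2 * (B * (j + 1)) * (j + 2) + A * ((j + 2) * (j + 1)) := by ring
    rw [this, e1']
    have h3 : (B : ℤ) * (j + 4) * (j + 1) = (B * (j + 1)) * (j + 4) := by ring
    rw [h3, e2']
    ring
  by_contra hcon
  push Not at hcon
  have h4 : 0 < ((D : ℤ) - 2 * B + A) * ((j + 2) * (j + 1)) := by positivity
  rw [key] at h4
  nlinarith

lemma trunc_zero {k : ℕ} (hk : 2 ≤ k) :
    truncCoeff (series (2 * k + 3) (fun _ : Fin 2 => 1)) (k + 1) = 0 := by
  unfold truncCoeff
  rw [if_neg]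
  intro h
  exact absurd (h (k + 1) le_rfl) (not_lt.mpr (coeff_nonpos hk))

/-! ### the functional -/

section functional
variable {K : Type} [Field K] {n k : ℕ}

/-- coefficients of the dual form -/
def cS (e v : Fin n → K) (S : Finset (Fin n)) : K :=
  ∏ i ∈ S, (e i * ∏ j ∈ S.erase i, (v i - v j))

lemma cS_insert (e v : Fin n → K) (T : Finset (Fin n)) {m : Fin n} (hm : m ∉ T) :
    cS e v (insert m T) = (-1) ^ T.card * cS e v T * (e m * ∏ j ∈ T, (v m - v j) ^ 2) := by
  classical
  unfold cS
  rw [Finset.prod_insert hm, Finset.erase_insert hm]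
  have h1 : ∀ i ∈ T, (e i * ∏ j ∈ (insert m T).erase i, (v i - v j)) =
      (-1) * (v m - v i) * (e i * ∏ j ∈ T.erase i, (v i - v j)) := by
    intro i hi
    have him : m ≠ i := by rintro rfl; exact hm hi
    rw [Finset.erase_insert_of_ne him, Finset.prod_insert (fun h => hm (Finset.mem_of_mem_erase h))]
    ring
  rw [Finset.prod_congr rfl h1, Finset.prod_mul_distrib, Finset.prod_mul_distrib,
    Finset.prod_const, Finset.prod_pow]
  ring

lemma cS_ne_zero {e v : Fin n → K} (he : ∀ i, e i ≠ 0) (hv : Function.Injective v)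
    (S : Finset (Fin n)) : cS e v S ≠ 0 := by
  unfold cS
  rw [Finset.prod_ne_zero_iff]
  intro i _
  refine mul_ne_zero (he i) ?_
  rw [Finset.prod_ne_zero_iff]
  intro j hj
  rw [sub_ne_zero]
  exact fun h => (Finset.mem_erase.mp hj).1 (hv h).symm

open Classical in
/-- the values of the functional on monomials -/
noncomputable def lam (e v : Fin n → K) (k : ℕ) (m : Fin n →₀ ℕ) : K :=
  if (∀ i, m i ≤ 1) ∧ m.degree = k + 1 then cS e v m.support else 0

/-- the interpolation identity -/
lemma interp {v : Fin (2 * k + 3) → K} (hv : Function.Injective v) {T : Finset (Fin (2 * k + 3))}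
    (hT : T.card = k) (ε : ℕ) (hε : ε ≤ 1) :
    ∑ m, v m ^ ε * (∏ j ∈ T, (v m - v j) ^ 2) / ∏ j ∈ Finset.univ.erase m, (v m - v j) = 0 := by
  classical
  let Q : Polynomial K := Polynomial.X ^ ε * ∏ j ∈ T, (Polynomial.X - Polynomial.C (v j)) ^ 2
  have hdeg : Q.natDegree ≤ ε + 2 * k := by
    refine Polynomial.natDegree_mul_le.trans ?_
    rw [Polynomial.natDegree_X_pow]
    refine Nat.add_le_add_left ?_ _
    refine (Polynomial.natDegree_prod_le _ _).trans ?_
    refine (Finset.sum_le_card_nsmul T _ 2 ?_).trans ?_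
    · intro j _
      refine Polynomial.natDegree_pow_le.trans ?_
      rw [Polynomial.natDegree_X_sub_C]
    · rw [hT, smul_eq_mul, mul_comm]
  have hcard : (Finset.univ : Finset (Fin (2 * k + 3))).card = 2 * k + 3 := by simp
  have hlt : Q.degree < (Finset.univ : Finset (Fin (2 * k + 3))).card := by
    rw [hcard]
    refine lt_of_le_of_lt Polynomial.degree_le_natDegree ?_
    exact_mod_cast (by omega : Q.natDegree < 2 * k + 3)
  have h1 := Lagrange.coeff_eq_sum (hv.injOn (s := (Finset.univ : Finset (Fin (2 * k + 3))))) hlt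
  have h2 : Q.coeff ((Finset.univ : Finset (Fin (2 * k + 3))).card - 1) = 0 := by
    apply Polynomial.coeff_eq_zero_of_natDegree_lt
    rw [hcard]; omega
  rw [h2] at h1
  rw [h1]
  refine Finset.sum_congr rfl fun m _ => ?_
  simp only [Q, Polynomial.eval_mul, Polynomial.eval_pow, Polynomial.eval_X,
    Polynomial.eval_prod, Polynomial.eval_sub, Polynomial.eval_C]

end functional

/-! ### nonvanishing -/

def sing {n : ℕ} (i : Fin n) : Sub n 1 := ⟨{i}, Finset.card_singleton i⟩

lemma sing_bij {n : ℕ} : Function.Bijective (sing : Fin n → Sub n 1) := by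
  constructor
  · intro i j h
    have := congrArg (fun F : Sub n 1 => F.1) h
    exact Finset.singleton_injective this
  · rintro ⟨F, hF⟩
    obtain ⟨i, rfl⟩ := Finset.card_eq_one.mp hF
    exact ⟨i, rfl⟩

lemma form_one {K : Type} [Field K] {n : ℕ} (c : Sub n 1 → K) :
    form c = ∑ i, C (c (sing i)) * X i := by
  unfold form
  rw [← Function.Bijective.sum_comp sing_bij]
  refine Finset.sum_congr rfl fun i _ => ?_
  rw [sing, Finset.prod_singleton]

/-- the functional kills the multiples of the two linear forms and of the squares, but not the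
square-free monomials of degree `k + 1`. -/
lemma exists_not_mem {K : Type} [Field K] (k : ℕ)
    (c : (Σ _ : Fin 2, Sub (2 * k + 3) 1) → K)
    (hb : ∀ i, c ⟨1, sing i⟩ ≠ 0)
    (hab : ∀ i j, i ≠ j → c ⟨0, sing i⟩ * c ⟨1, sing j⟩ ≠ c ⟨0, sing j⟩ * c ⟨1, sing i⟩)
    (S : Finset (Fin (2 * k + 3))) (hS : S.card = k + 1) :
    (∏ i ∈ S, X i : MvPolynomial (Fin (2 * k + 3)) K) ∉
      idl (d := fun _ : Fin 2 => 1) c := by
  classical
  let a : Fin (2 * k + 3) → K := fun i => c ⟨0, sing i⟩
  let b : Fin (2 * k + 3) → K := fun i => c ⟨1, sing i⟩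
  let v : Fin (2 * k + 3) → K := fun i => a i / b i
  have hv : Function.Injective v := by
    intro i j h
    by_contra hne
    apply hab i j hne
    have h' : a i / b i = a j / b j := h
    rw [div_eq_div_iff (hb i) (hb j)] at h'
    exact h'
  let e : Fin (2 * k + 3) → K := fun m => (b m)⁻¹ * (∏ j ∈ Finset.univ.erase m, (v m - v j))⁻¹
  have he : ∀ i, e i ≠ 0 := by
    intro i
    refine mul_ne_zero (inv_ne_zero (hb i)) (inv_ne_zero ?_)
    rw [Finset.prod_ne_zero_iff]
    intro j hj
    rw [sub_ne_zero]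
    exact fun h => (Finset.mem_erase.mp hj).1 (hv h).symm
  intro hmem
  -- the functional vanishes on the ideal
  have hkill := lin_span (lam e v k) (⊥ : Submodule K K) _ ?_ hmem
  · have hmon : (∏ i ∈ S, X i : MvPolynomial (Fin (2 * k + 3)) K) =
        monomial (∑ i ∈ S, Finsupp.single i 1) 1 := by
      rw [monomial_sum_one]; rfl
    rw [hmon, Submodule.mem_bot, lin_monomial, one_smul] at hkill
    have hap : ∀ j, (∑ i ∈ S, Finsupp.single i 1 : Fin (2 * k + 3) →₀ ℕ) j = if j ∈ S then 1 else 0 := by
      intro j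
      rw [Finsupp.finsetSum_apply]
      simp only [Finsupp.single_apply]
      rw [Finset.sum_ite_eq']
    have hsupp : (∑ i ∈ S, Finsupp.single i 1 : Fin (2 * k + 3) →₀ ℕ).support = S := by
      ext j
      rw [Finsupp.mem_support_iff, hap]
      simp
    have hcond : (∀ i, (∑ i ∈ S, Finsupp.single i 1 : Fin (2 * k + 3) →₀ ℕ) i ≤ 1) ∧
        (∑ i ∈ S, Finsupp.single i 1 : Fin (2 * k + 3) →₀ ℕ).degree = k + 1 := by
      constructor
      · intro i; rw [hap]; split_ifs <;> simp
      · rw [map_sum]
        simp [hS]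
    unfold lam at hkill
    rw [if_pos hcond, hsupp] at hkill
    exact cS_ne_zero he hv S hkill
  · have hlin : ∀ (α : Fin (2 * k + 3) → K) (ε : ℕ), ε ≤ 1 → (∀ i, α i = b i * v i ^ ε) →
        ∀ w : Fin (2 * k + 3) →₀ ℕ,
        lin (lam e v k) (monomial w 1 * ∑ i, C (α i) * X i : MvPolynomial (Fin (2 * k + 3)) K) = 0 := by
      intro α ε hε hα w
      have h1 : (monomial w 1 * ∑ i, C (α i) * X i : MvPolynomial (Fin (2 * k + 3)) K) =
          ∑ i, monomial (w + Finsupp.single i 1) (α i) := by
        rw [Finset.mul_sum]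
        refine Finset.sum_congr rfl fun i _ => ?_
        rw [X, C_mul_monomial, monomial_mul, one_mul, mul_one]
      rw [h1, map_sum]
      simp only [lin_monomial, smul_eq_mul]
      by_cases hw : (∀ i, w i ≤ 1) ∧ w.degree = k
      · obtain ⟨hw1, hw2⟩ := hw
        set T := w.support with hT
        have hwap : ∀ i, w i = if i ∈ T then 1 else 0 := by
          intro i
          by_cases hi : i ∈ T
          · rw [if_pos hi]
            have := hw1 i
            have h2 : w i ≠ 0 := Finsupp.mem_support_iff.mp hi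
            omega
          · rw [if_neg hi]
            exact Finsupp.notMem_support_iff.mp hi
        have hTk : T.card = k := by
          refine Eq.trans ?_ hw2
          rw [Finsupp.degree_eq_sum, Finset.sum_congr rfl (fun i _ => hwap i)]
          simp
        have hterm : ∀ i, α i * lam e v k (w + Finsupp.single i 1) =
            ((-1) ^ k * cS e v T) * (v i ^ ε * (∏ j ∈ T, (v i - v j) ^ 2) /
              ∏ j ∈ Finset.univ.erase i, (v i - v j)) := by
          intro i
          by_cases hi : i ∈ T
          · have h0 : ∏ j ∈ T, (v i - v j) ^ 2 = 0 :=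
              Finset.prod_eq_zero hi (by rw [sub_self]; ring)
            rw [h0, mul_zero, zero_div, mul_zero]
            unfold lam
            rw [if_neg, mul_zero]
            rintro ⟨h2, -⟩
            have := h2 i
            rw [Finsupp.add_apply, hwap, if_pos hi, Finsupp.single_eq_same] at this
            omega
          · have hsupp : (w + Finsupp.single i 1).support = insert i T := by
              ext j
              rw [Finsupp.mem_support_iff, Finsupp.add_apply, hwap, Finsupp.single_apply,
                Finset.mem_insert]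
              by_cases hij : i = j
              · subst hij; simp
              · rw [if_neg hij, add_zero]
                by_cases hj : j ∈ T
                · simp [hj]
                · simp [hj, Ne.symm hij]
            have hcond : (∀ j, (w + Finsupp.single i 1 : Fin (2 * k + 3) →₀ ℕ) j ≤ 1) ∧
                (w + Finsupp.single i 1 : Fin (2 * k + 3) →₀ ℕ).degree = k + 1 := by
              constructor
              · intro j
                rw [Finsupp.add_apply, hwap, Finsupp.single_apply]
                by_cases hij : i = j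
                · subst hij; rw [if_neg hi, if_pos rfl]
                · rw [if_neg hij]; split_ifs <;> simp
              · rw [map_add, hw2]; simp
            unfold lam
            rw [if_pos hcond, hsupp, cS_insert e v T hi, hTk, hα]
            have hbi : b i ≠ 0 := hb i
            simp only [e]
            rw [div_eq_mul_inv]
            field_simp
        rw [Finset.sum_congr rfl (fun i _ => hterm i), ← Finset.mul_sum, interp hv hTk ε hε,
          mul_zero]
      · apply Finset.sum_eq_zero
        intro i _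
        unfold lam
        rw [if_neg, mul_zero]
        rintro ⟨h2, h3⟩
        apply hw
        constructor
        · intro j
          have := h2 j
          rw [Finsupp.add_apply] at this
          omega
        · rw [map_add, Finsupp.degree_single] at h3
          omega
    rintro g (⟨i, rfl⟩ | ⟨i, rfl⟩) w
    · rw [Submodule.mem_bot]
      have h1 : (monomial w 1 * X i ^ 2 : MvPolynomial (Fin (2 * k + 3)) K) =
          monomial (w + Finsupp.single i 2) 1 := by
        rw [X_pow_eq_monomial, monomial_mul, one_mul]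
      show lin (lam e v k) (monomial w 1 * X i ^ 2) = 0
      rw [h1, lin_monomial]
      unfold lam
      rw [if_neg, smul_zero]
      rintro ⟨h2, -⟩
      have := h2 i
      rw [Finsupp.add_apply, Finsupp.single_eq_same] at this
      omega
    · rw [Submodule.mem_bot]
      show lin (lam e v k) (monomial w 1 * form (fun F => c ⟨i, F⟩)) = 0
      rw [form_one]
      fin_cases i
      · refine hlin _ 1 le_rfl ?_ w
        intro i
        rw [pow_one]
        show a i = b i * (a i / b i)
        have hbi : b i ≠ 0 := hb i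
        field_simp
      · refine hlin _ 0 (by norm_num) ?_ w
        intro i
        rw [pow_zero, mul_one]
        rfl

/-- nonzero dimension in degree `k + 1` -/
lemma HF_pos {K : Type} [Field K] (k : ℕ)
    (c : (Σ _ : Fin 2, Sub (2 * k + 3) 1) → K)
    (hb : ∀ i, c ⟨1, sing i⟩ ≠ 0)
    (hab : ∀ i j, i ≠ j → c ⟨0, sing i⟩ * c ⟨1, sing j⟩ ≠ c ⟨0, sing j⟩ * c ⟨1, sing i⟩) :
    0 < HF (idl (d := fun _ : Fin 2 => 1) c) (k + 1) := by
  classical
  obtain ⟨S, -, hS⟩ := Finset.exists_subset_card_eq
    (show k + 1 ≤ (Finset.univ : Finset (Fin (2 * k + 3))).card by simp; omega)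
  have hnot := exists_not_mem k c hb hab S hS
  have hhom : (∏ i ∈ S, X i : MvPolynomial (Fin (2 * k + 3)) K) ∈
      homogeneousSubmodule (Fin (2 * k + 3)) K (k + 1) := by
    rw [mem_homogeneousSubmodule, ← hS, Finset.card_eq_sum_ones]
    exact IsHomogeneous.prod S _ _ (fun i _ => isHomogeneous_X _ _)
  unfold HF
  have hfin : Module.Finite K (homogeneousSubmodule (Fin (2 * k + 3)) K (k + 1)) :=
    Module.Finite.iff_fg.mpr (homogeneousSubmodule_fg _ _ _)
  have hnt : Nontrivial (homogeneousSubmodule (Fin (2 * k + 3)) K (k + 1) ⧸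
    ((idl (d := fun _ : Fin 2 => 1) c).restrictScalars K).submoduleOf
      (homogeneousSubmodule (Fin (2 * k + 3)) K (k + 1))) := by
    rw [Submodule.Quotient.nontrivial_iff]
    intro htop
    apply hnot
    have : (⟨_, hhom⟩ : homogeneousSubmodule (Fin (2 * k + 3)) K (k + 1)) ∈
        ((idl (d := fun _ : Fin 2 => 1) c).restrictScalars K).submoduleOf
          (homogeneousSubmodule (Fin (2 * k + 3)) K (k + 1)) := by
      rw [htop]; trivial
    exact this
  exact Module.finrank_pos

/-- the polynomial defining the open set -/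
noncomputable def G (K : Type) [Field K] (k : ℕ) :
    MvPolynomial (Σ _ : Fin 2, Sub (2 * k + 3) 1) K :=
  (∏ i, X ⟨1, sing i⟩) * ∏ p : Fin (2 * k + 3) × Fin (2 * k + 3),
    if p.1 = p.2 then 1 else
      X ⟨0, sing p.1⟩ * X ⟨1, sing p.2⟩ - X ⟨0, sing p.2⟩ * X ⟨1, sing p.1⟩

lemma G_ne_zero (K : Type) [Field K] (k : ℕ) : G K k ≠ 0 := by
  classical
  unfold G
  refine mul_ne_zero ?_ ?_
  · rw [Finset.prod_ne_zero_iff]
    intro i _
    exact X_ne_zero _
  · rw [Finset.prod_ne_zero_iff]
    rintro ⟨i, j⟩ _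
    by_cases hij : i = j
    · rw [if_pos hij]; exact one_ne_zero
    · rw [if_neg hij]
      intro h0
      have h1 := congrArg (eval (fun x : (Σ _ : Fin 2, Sub (2 * k + 3) 1) =>
        if x = ⟨0, sing i⟩ ∨ x = ⟨1, sing j⟩ then (1 : K) else 0)) h0
      have n1 : (⟨0, sing j⟩ : (Σ _ : Fin 2, Sub (2 * k + 3) 1)) ≠ ⟨0, sing i⟩ := by
        intro h
        have h2 := eq_of_heq (Sigma.mk.inj h).2
        exact hij (sing_bij.1 h2).symm
      have n2 : (⟨0, sing j⟩ : (Σ _ : Fin 2, Sub (2 * k + 3) 1)) ≠ ⟨1, sing j⟩ := by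
        intro h
        have h2 := (Sigma.mk.inj h).1
        exact absurd h2 (by decide)
      simp [n1, n2] at h1

lemma of_G {K : Type} [Field K] {k : ℕ} {c : (Σ _ : Fin 2, Sub (2 * k + 3) 1) → K}
    (h : eval c (G K k) ≠ 0) : (∀ i, c ⟨1, sing i⟩ ≠ 0) ∧
    (∀ i j, i ≠ j → c ⟨0, sing i⟩ * c ⟨1, sing j⟩ ≠ c ⟨0, sing j⟩ * c ⟨1, sing i⟩) := by
  unfold G at h
  rw [map_mul, map_prod, map_prod] at h
  have h1 := left_ne_zero_of_mul h
  have h2 := right_ne_zero_of_mul h
  rw [Finset.prod_ne_zero_iff] at h1 h2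
  constructor
  · intro i
    have := h1 i (Finset.mem_univ _)
    rwa [eval_X] at this
  · intro i j hij
    have := h2 (i, j) (Finset.mem_univ _)
    rw [if_neg hij, map_sub, map_mul, map_mul, eval_X, eval_X, eval_X, eval_X] at this
    exact sub_ne_zero.mp this

/-- For every infinite field and every `k ≥ 2`, the Hilbert series of the square-free algebra in
`n = 2k+3` variables modulo two generic linear forms is not the truncation of
`(1+t)^n (1-t)^2`: the truncation vanishes in degree `k+1`, but the quotient does not. In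
particular the conjectured formula is false for all infinite fields. -/
theorem result (K : Type) [Field K] [Infinite K] :
    (∀ k, 2 ≤ k →
      truncCoeff (series (2 * k + 3) (fun _ : Fin 2 => 1)) (k + 1) = 0 ∧
      (∃ g : MvPolynomial (Σ _ : Fin 2, Sub (2 * k + 3) 1) K, g ≠ 0 ∧ ∀ c, eval c g ≠ 0 →
        0 < HF (idl (d := fun _ : Fin 2 => 1) c) (k + 1)) ∧
      ¬ GenericSeriesIs K (2 * k + 3) (fun _ : Fin 2 => 1)) ∧
    ¬ ∀ (n r : ℕ) (d : Fin r → ℕ), 1 ≤ n → 1 ≤ r → (∀ i, 1 ≤ d i) → GenericSeriesIs K n d := by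
  have main : ∀ k, 2 ≤ k →
      truncCoeff (series (2 * k + 3) (fun _ : Fin 2 => 1)) (k + 1) = 0 ∧
      (∃ g : MvPolynomial (Σ _ : Fin 2, Sub (2 * k + 3) 1) K, g ≠ 0 ∧ ∀ c, eval c g ≠ 0 →
        0 < HF (idl (d := fun _ : Fin 2 => 1) c) (k + 1)) ∧
      ¬ GenericSeriesIs K (2 * k + 3) (fun _ : Fin 2 => 1) := by
    intro k hk
    have hG : ∀ c, eval c (G K k) ≠ 0 → 0 < HF (idl (d := fun _ : Fin 2 => 1) c) (k + 1) :=
      fun c hc => HF_pos k c (of_G hc).1 (of_G hc).2
    refine ⟨trunc_zero hk, ⟨G K k, G_ne_zero K k, hG⟩, ?_⟩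
    rintro ⟨g, hg, h⟩
    have hne : g * G K k ≠ 0 := mul_ne_zero hg (G_ne_zero K k)
    obtain ⟨c, hc⟩ : ∃ c, eval c (g * G K k) ≠ 0 := by
      by_contra hcon
      push Not at hcon
      apply hne
      apply MvPolynomial.funext
      intro c
      rw [hcon c, map_zero]
    rw [map_mul] at hc
    have h1 := h c (left_ne_zero_of_mul hc) (k + 1)
    rw [trunc_zero hk] at h1
    have h2 := hG c (right_ne_zero_of_mul hc)
    omega
  refine ⟨main, ?_⟩
  intro h
  exact (main 2 le_rfl).2.2 (h 7 2 (fun _ => 1) (by norm_num) (by norm_num) (fun _ => le_rfl))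

end Pool.Agent.Results.MP_3acc10_al.TwoLinearForms
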